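import Pool.Agent.Work.MP_659252_gt.SP.V.MConf

/-!
# Merging a finite chain of families.  Size: M.

PROOF.  `inside_trans`: `Inside A T A' T'`, `Inside A' T' A'' T''`, `0 < T'` give `Inside A T A'' T''` (take any level of `A'`).
`innermost`: for a nonempty finite set `S` of indices, pairwise `Inside` one way or the other, there is `j ∈ S` with `Inside (A j) (T j) (A i) (T i)` for all `i ∈ S`, `i ≠ j`: induction on `S` (`Finset.Nonempty.cons_induction` or `Finset.induction_on`): for `insert a S'` let `j'` be innermost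
in `S'`; if `Inside a j'` then `a` is innermost in `insert a S'` by transitivity, otherwise `Inside j' a` and `j'` is innermost.
`chain`: induction on the number of elements of `S` (strong induction, or `Finset` induction removing the innermost element `j`).  Claim for nonempty `S`: for all profiles there are `M, T', B'` with `Solid M T'`, `Prof T' B'`, `conf M T' B' = ∑_{i ∈ S} conf (A i) (T i) (B i)` and
(*) for every `u ∈ (0, T')` there are `i ∈ S`, `t ∈ (0, T i)` with `∀ x, Q (A i) t x x ≤ 0 → Q M u x x ≤ 0`.  For `S = {j}` take `M = A j`.  For `S = insert j S'`, `S'` nonempty, `j` innermost: `M', T'', B''` for `S'`; by (*) `Inside (A j) (T j) M' T''`: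
for `t`, `u`: `Q (A j) t x x ≤ 0 → Q (A i) t' x x ≤ 0 → Q M' u x x ≤ 0`.  `merge_conf` with inner family `A j` and outer family `M'`; (*) from the last clause.
-/

namespace Pool.Agent.Work.MP_659252_gt.SP

open scoped ContDiff Topology
open Pool.Agent.Work.MP_659252_gt.Z (V Ten val Tan InT)
open Pool.Agent.Work.MP_659252_gt.Y (Path Q AX dot Nested lev conf)
open Pool.Agent.Work.MP_659252_gt.QR (gr D2 Layered SymTen dir Bump Kq Loc Mat bil mul)

variable {d : ℕ}

private theorem ch_trans {A A' A'' : Path d} {T T' T'' : ℝ} (h : Inside A T A' T')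
    (h' : Inside A' T' A'' T'') (hT : 0 < T') : Inside A T A'' T'' := by
  intro s hs s'' hs'' x hx
  have hm : T' / 2 ∈ Set.Ioo 0 T' := ⟨by linarith, by linarith⟩
  exact h' _ hm s'' hs'' x (h s hs _ hm x hx)

private theorem ch_inner {ι : Type} (A : ι → Path d) (T : ι → ℝ) (hT : ∀ i, 0 < T i)
    (hch : ∀ i j, i ≠ j → Inside (A i) (T i) (A j) (T j) ∨ Inside (A j) (T j) (A i) (T i))
    (S : Finset ι) (hS : S.Nonempty) :
    ∃ j ∈ S, ∀ i ∈ S, i ≠ j → Inside (A j) (T j) (A i) (T i) := by
  classical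
  induction hS using Finset.Nonempty.cons_induction with
  | singleton a =>
    refine ⟨a, Finset.mem_singleton_self a, fun i hi hia => ?_⟩
    exact absurd (Finset.mem_singleton.1 hi) hia
  | cons a S' ha hS' ih =>
    obtain ⟨j, hj, hjm⟩ := ih
    have haj : a ≠ j := fun h => ha (h ▸ hj)
    rcases hch a j haj with h1 | h1
    · refine ⟨a, Finset.mem_cons_self a S', fun i hi hia => ?_⟩
      rcases Finset.mem_cons.1 hi with h2 | h2
      · exact absurd h2 hia
      · by_cases hij : i = j
        · rw [hij]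
          exact h1
        · exact ch_trans h1 (hjm i h2 hij) (hT j)
    · refine ⟨j, Finset.mem_cons.2 (Or.inr hj), fun i hi hij => ?_⟩
      rcases Finset.mem_cons.1 hi with h2 | h2
      · rw [h2]
        exact h1
      · exact hjm i h2 hij

theorem chain (ι : Type) (A : ι → Path d) (T : ι → ℝ) (hA : ∀ i, Solid (A i) (T i))
    (hch : ∀ i j, i ≠ j → Inside (A i) (T i) (A j) (T j) ∨ Inside (A j) (T j) (A i) (T i)) (S : Finset ι)
    (hS : S.Nonempty) (B : ι → ℝ → ℝ) (hB : ∀ i, Prof (T i) (B i)) :
    ∃ (M : Path d) (T' : ℝ) (B' : ℝ → ℝ), Solid M T' ∧ Prof T' B' ∧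
      ∀ x k l, conf M T' B' x k l = ∑ i ∈ S, conf (A i) (T i) (B i) x k l := by
  classical
  have key : ∀ S : Finset ι, S.Nonempty → ∃ (M : Path d) (T' : ℝ) (B' : ℝ → ℝ), Solid M T' ∧
      Prof T' B' ∧ (∀ x k l, conf M T' B' x k l = ∑ i ∈ S, conf (A i) (T i) (B i) x k l) ∧
      ∀ u ∈ Set.Ioo 0 T', ∃ i ∈ S, ∃ t ∈ Set.Ioo 0 (T i),
        ∀ x : V d, Q (A i) t x x ≤ 0 → Q M u x x ≤ 0 := by
    intro S
    induction S using Finset.strongInduction with
    | H S ih =>
      intro hS
      obtain ⟨j, hj, hjm⟩ := ch_inner A T (fun i => (hA i).pos) hch S hS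
      rcases (S.erase j).eq_empty_or_nonempty with he | hn
      · refine ⟨A j, T j, B j, hA j, hB j, fun x k l => ?_, fun u hu => ⟨j, hj, u, hu, fun x h => h⟩⟩
        rw [← Finset.add_sum_erase S _ hj, he, Finset.sum_empty, add_zero]
      · obtain ⟨M', T'', B'', hM', hB'', hc', hu'⟩ := ih (S.erase j) (Finset.erase_ssubset hj) hn
        have hin : Inside (A j) (T j) M' T'' := by
          intro t ht u hu x hx
          obtain ⟨i, hi, t', ht', h1⟩ := hu' u hu
          refine h1 x ?_
          exact hjm i (Finset.mem_of_mem_erase hi) (Finset.ne_of_mem_erase hi) t ht t' ht' x hx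
        obtain ⟨M, T', B', hM, hB', hc, hu⟩ :=
          merge_conf (A j) (T j) M' T'' (hA j) hM' hin (B j) B'' (hB j) hB''
        refine ⟨M, T', B', hM, hB', fun x k l => ?_, fun u huu => ?_⟩
        · rw [hc, hc', Finset.add_sum_erase S (fun i => conf (A i) (T i) (B i) x k l) hj]
        · rcases hu u huu with ⟨t, ht, h1⟩ | ⟨t, ht, h1⟩
          · obtain ⟨i, hi, t', ht', h2⟩ := hu' t ht
            exact ⟨i, Finset.mem_of_mem_erase hi, t', ht', fun x hx => h1 x (h2 x hx)⟩
          · exact ⟨j, hj, t, ht, h1⟩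
  obtain ⟨M, T', B', h1, h2, h3, -⟩ := key S hS
  exact ⟨M, T', B', h1, h2, h3⟩

end Pool.Agent.Work.MP_659252_gt.SP
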