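import Pool.Agent.Work.MP_659252_gt.SP.V.Merge
import Pool.Agent.Work.MP_659252_gt.SP.C.LevA

/-!
# The sum of the tensors of two families.  Size: M-L.

PROOF.  `merge` with `a₁` (support of `B₁` in `[a₁, c₁]`, `0 < a₁`, `c₁ < T₁`) and `c₂` (support of `B₂` in `[a₂, c₂]`).  `B u = B₂ u + lam⁻¹ B₁ (u - σ)`, smooth; it vanishes outside of `[a₂, c₂] ∪ [a₁ + σ, c₁ + σ]`, contained in `[min a₂ (a₁+σ), max c₂ (c₁+σ)]`;
`a₁ + σ > s₁ > 0`, `c₂ < s₀ < T`, `c₁ + σ < T₁ + σ = T`.  (`s₀ < T` since `s₁ - σ < T₁`.)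
Fix `x`; if `x 0 = 0` everything is `0` (`sign 0 = 0`).  Let `x 0 ≠ 0`, so `x ≠ 0`; `l₁ = lev A₁ T₁ x`, `l₂ = lev A₂ T₂ x`, `l = lev M T x`.
(a) If `l₂ ∈ [a₂, c₂]`: `Q A₂ l₂ x x = 0` (`lv_root`), `M l₂ = A₂ l₂` (`l₂ ≤ c₂ < s₀`), so `l = l₂` (`lev_eq` for `M`); `l - σ < s₀ - σ < a₁`, so `B₁ (l - σ) = 0`; `0 = Q A₂ l₂ x x < Q A₂ s₀ x x < lam Q A₁ (s₀ - σ) x x`, so `l₁ < s₀ - σ < a₁` (`lev_lt`) and `B₁ l₁ = 0`.
`dot M l = dot A₂ l` (equal near `l`), so `conf M T B x = conf A₂ T₂ B₂ x` and `conf A₁ T₁ B₁ x = 0`.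
(b) If `l₁ ∈ [a₁, c₁]`: `u = l₁ + σ > s₁`, `M u = lam A₁ l₁`, `Q M u x x = 0`, `l = u`; `Q A₁ (s₁ - σ) x x < Q A₁ l₁ x x = 0`, so `Q A₂ s₁ x x < 0`, `l₂ > s₁ > c₂` (`lt_lev`), `B₂ l₂ = 0`; `B₂ l = 0` as `l = u > s₁ > c₂`.  `dot M u = lam dot A₁ l₁` (near `u`),
`conf M T B x = 2 sign lam⁻¹ B₁(l₁) (lam² AX AX)/(lam Q(dot A₁)) = conf A₁ T₁ B₁ x`.
(c) Otherwise `B₂ l₂ = 0`, `B₁ l₁ = 0`; and `B l = 0`: if `l ∈ [a₂, c₂]` then `0 < l < T`, `Q M l x x = 0`, `M l = A₂ l`, `l₂ = l`: case (a).  If `l - σ ∈ [a₁, c₁]` then `l > s₁`, `Q A₁ (l - σ) x x = 0`, `l₁ = l - σ`: case (b).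
-/

namespace Pool.Agent.Work.MP_659252_gt.SP

open scoped ContDiff Topology
open Pool.Agent.Work.MP_659252_gt.Z (V Ten val Tan InT)
open Pool.Agent.Work.MP_659252_gt.Y (Path Q AX dot Nested lev conf)
open Pool.Agent.Work.MP_659252_gt.QR (gr D2 Layered SymTen dir Bump Kq Loc Mat bil mul)

variable {d : ℕ}

private theorem root' {A : Path d} {T : ℝ} (hA : Nested A T) (x : V d) (hx : x ≠ 0)
    (h1 : 0 < lev A T x) (h2 : lev A T x < T) : Q A (lev A T x) x x = 0 := by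
  rcases lt_trichotomy (Q A (lev A T x) x x) 0 with h | h | h
  · exact absurd (Y.lt_lev hA ⟨h1, h2⟩ x hx h) (lt_irrefl _)
  · exact h
  · exact absurd (Y.lev_lt hA ⟨h1, h2⟩ x hx h) (lt_irrefl _)

private theorem Q_congr {A A' : Path d} {s s' : ℝ} (h : A s = A' s') (x y : V d) :
    Q A s x y = Q A' s' x y := by
  unfold Y.Q
  rw [h]

private theorem AX_congr {A A' : Path d} {s s' : ℝ} (h : A s = A' s') (x : V d) :
    AX A s x = AX A' s' x := by
  unfold Y.AX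
  rw [h]

private theorem Q_mul' {A A' : Path d} {s s' c : ℝ} (h : A s = fun i j => c * A' s' i j) (x y : V d) :
    Q A s x y = c * Q A' s' x y := by
  unfold Y.Q
  rw [h, Finset.mul_sum]
  refine Finset.sum_congr rfl fun i _ => ?_
  rw [Finset.mul_sum]
  refine Finset.sum_congr rfl fun j _ => ?_
  ring

private theorem AX_mul' {A A' : Path d} {s s' c : ℝ} (h : A s = fun i j => c * A' s' i j) (x : V d)
    (k : Fin (d + 1)) : AX A s x k = c * AX A' s' x k := by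
  unfold Y.AX
  rw [h, Finset.mul_sum]
  refine Finset.sum_congr rfl fun j _ => ?_
  ring

theorem merge_conf (A₁ : Path d) (T₁ : ℝ) (A₂ : Path d) (T₂ : ℝ) (h₁ : Solid A₁ T₁) (h₂ : Solid A₂ T₂)
    (hin : Inside A₁ T₁ A₂ T₂) (B₁ B₂ : ℝ → ℝ) (hB₁ : Prof T₁ B₁) (hB₂ : Prof T₂ B₂) :
    ∃ (M : Path d) (T : ℝ) (B : ℝ → ℝ), Solid M T ∧ Prof T B ∧
      (∀ x k l, conf M T B x k l = conf A₁ T₁ B₁ x k l + conf A₂ T₂ B₂ x k l) ∧
      ∀ u ∈ Set.Ioo 0 T, (∃ t ∈ Set.Ioo 0 T₂, ∀ x : V d, Q A₂ t x x ≤ 0 → Q M u x x ≤ 0) ∨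
        ∃ t ∈ Set.Ioo 0 T₁, ∀ x : V d, Q A₁ t x x ≤ 0 → Q M u x x ≤ 0 := by
  obtain ⟨hB₁s, a₁, c₁, ha₁, hc₁, hz₁⟩ := hB₁
  obtain ⟨hB₂s, a₂, c₂, ha₂, hc₂, hz₂⟩ := hB₂
  obtain ⟨M, T, σ, lam, s₀, s₁, hM, hT, hlam, hs0, hcs, hs01, hs1T, hσ0, hσ1, hσ2, hlo, hhi, hiii,
    hcmp⟩ := merge A₁ T₁ A₂ T₂ h₁ h₂ hin a₁ c₂ ha₁ hc₂
  refine ⟨M, T, fun u => B₂ u + lam⁻¹ * B₁ (u - σ), hM, ⟨?_, min a₂ (a₁ + σ), max c₂ (c₁ + σ), ?_, ?_, ?_⟩,
    ?_, hiii⟩
  · exact hB₂s.add (contDiff_const.mul (hB₁s.comp (contDiff_id.sub contDiff_const)))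
  · exact lt_min ha₂ (by linarith)
  · exact max_lt (by linarith) (by linarith)
  · intro u hu
    have h1 : B₂ u = 0 := hz₂ u fun h => hu ⟨(min_le_left _ _).trans h.1, h.2.trans (le_max_left _ _)⟩
    have h2 : B₁ (u - σ) = 0 := hz₁ _ fun h => hu ⟨(min_le_right _ _).trans (by linarith [h.1]),
      le_trans (by linarith [h.2]) (le_max_right _ _)⟩
    show B₂ u + lam⁻¹ * B₁ (u - σ) = 0
    rw [h1, h2]
    ring
  · intro x k l
    by_cases hx0 : x 0 = 0
    · simp [Y.conf, hx0]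
    have hx : x ≠ 0 := fun h => hx0 (by rw [h]; rfl)
    have hT2 : s₁ < T := by linarith
    by_cases hA : lev A₂ T₂ x ∈ Set.Icc a₂ c₂
    · -- the outer family
      obtain ⟨hA1, hA2⟩ := hA
      have hr := root' h₂.nested x hx (by linarith) (by linarith)
      have hMl : M (lev A₂ T₂ x) = A₂ (lev A₂ T₂ x) := hlo _ (by linarith)
      have hl : lev M T x = lev A₂ T₂ x := by
        refine Y.lev_eq hM.nested ⟨by linarith, by linarith⟩ x hx ?_
        rw [Q_congr hMl, hr]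
      have hd : dot M (lev A₂ T₂ x) = dot A₂ (lev A₂ T₂ x) := by
        funext i j
        unfold Y.dot
        refine Filter.EventuallyEq.deriv_eq ?_
        filter_upwards [Iio_mem_nhds (show lev A₂ T₂ x < s₀ by linarith)] with u hu
        rw [hlo u hu]
      have h1 : B₁ (lev A₂ T₂ x - σ) = 0 := hz₁ _ fun h => by linarith [h.1]
      have hq : Q A₂ (lev A₂ T₂ x) x x < Q A₂ s₀ x x :=
        Y.Q_lt h₂.nested ⟨by linarith, by linarith⟩ ⟨hs0, by linarith⟩ (by linarith) x hx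
      have hq2 := hcmp s₀ ⟨le_rfl, hs01.le⟩ x hx
      have hq3 : 0 < Q A₁ (s₀ - σ) x x := by
        by_contra hcon
        have := mul_nonpos_of_nonneg_of_nonpos hlam.le (not_lt.1 hcon)
        linarith
      have hl1 : lev A₁ T₁ x < s₀ - σ := Y.lev_lt h₁.nested ⟨hσ0, by linarith⟩ x hx hq3
      have h2 : B₁ (lev A₁ T₁ x) = 0 := hz₁ _ fun h => by linarith [h.1]
      unfold Y.conf
      rw [hl, h2, Q_congr hd, AX_congr hMl]
      simp only [h1]
      ring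
    by_cases hB : lev A₁ T₁ x ∈ Set.Icc a₁ c₁
    · -- the inner family
      obtain ⟨hB1, hB2⟩ := hB
      have hr := root' h₁.nested x hx (by linarith) (by linarith)
      set r : ℝ := lev A₁ T₁ x with hrdef
      have hu1 : s₁ < r + σ := by linarith
      have hMu : M (r + σ) = fun i j => lam * A₁ r i j := by
        rw [hhi _ hu1]
        funext i j
        rw [add_sub_cancel_right]
      have hl : lev M T x = r + σ := by
        refine Y.lev_eq hM.nested ⟨by linarith, by linarith⟩ x hx ?_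
        rw [Q_mul' hMu, hr, mul_zero]
      have hd : dot M (r + σ) = fun i j => lam * dot A₁ r i j := by
        funext i j
        unfold Y.dot
        have h1 : deriv (fun u => M u i j) (r + σ) = deriv (fun u => lam * A₁ (u - σ) i j) (r + σ) := by
          refine Filter.EventuallyEq.deriv_eq ?_
          filter_upwards [Ioi_mem_nhds hu1] with u hu
          rw [hhi u hu]
        rw [h1, deriv_const_mul_field]
        have h2 := deriv_comp_sub_const (f := fun v => A₁ v i j) (a := σ) (x := r + σ)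
        rw [h2, add_sub_cancel_right]
      have hq : Q A₁ (s₁ - σ) x x < Q A₁ r x x :=
        Y.Q_lt h₁.nested ⟨by linarith, by linarith⟩ ⟨by linarith, by linarith⟩ (by linarith) x hx
      have hq2 := hcmp s₁ ⟨hs01.le, le_rfl⟩ x hx
      have hq3 : Q A₂ s₁ x x < 0 := by
        have := mul_neg_of_pos_of_neg hlam (show Q A₁ (s₁ - σ) x x < 0 by linarith)
        linarith
      have hl2 : s₁ < lev A₂ T₂ x := Y.lt_lev h₂.nested ⟨by linarith, hs1T⟩ x hx hq3
      have h2 : B₂ (lev A₂ T₂ x) = 0 := hz₂ _ fun h => by linarith [h.2]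
      have h3 : B₂ (r + σ) = 0 := hz₂ _ fun h => by linarith [h.2]
      have hpos : 0 < Q (dot A₁) r x x := h₁.nested.mono r ⟨by linarith, by linarith⟩ x hx
      unfold Y.conf
      rw [hl, h2, Q_mul' hd, AX_mul' hMu, AX_mul' hMu, ← hrdef]
      simp only [h3, add_sub_cancel_right]
      field_simp
      ring
    · -- neither
      have h2 : B₂ (lev A₂ T₂ x) = 0 := hz₂ _ hA
      have h1 : B₁ (lev A₁ T₁ x) = 0 := hz₁ _ hB
      have h3 : B₂ (lev M T x) = 0 := by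
        refine hz₂ _ fun h => hA ?_
        have hr := root' hM.nested x hx (by linarith [h.1]) (by linarith [h.2])
        have hMl : M (lev M T x) = A₂ (lev M T x) := hlo _ (by linarith [h.2])
        rw [Q_congr hMl] at hr
        have := Y.lev_eq h₂.nested ⟨by linarith [h.1], by linarith [h.2]⟩ x hx hr
        rw [this]
        exact h
      have h4 : B₁ (lev M T x - σ) = 0 := by
        refine hz₁ _ fun h => hB ?_
        have hr := root' hM.nested x hx (by linarith [h.1]) (by linarith [h.2])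
        have hMl := hhi (lev M T x) (by linarith [h.1])
        rw [Q_mul' (A' := A₁) (s' := lev M T x - σ) hMl] at hr
        have hr' : Q A₁ (lev M T x - σ) x x = 0 := by
          rcases mul_eq_zero.1 hr with h' | h'
          · exact absurd h' hlam.ne'
          · exact h'
        have := Y.lev_eq h₁.nested ⟨by linarith [h.1], by linarith [h.2]⟩ x hx hr'
        rw [this]
        exact h
      unfold Y.conf
      simp only [h1, h2, h3, h4]
      ring

end Pool.Agent.Work.MP_659252_gt.SP
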