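import Pool.Agent.Work.MP_659252_gt.SP.G.Slem
import Pool.Agent.Work.MP_659252_gt.SP.Defs
import Pool.Agent.Work.MP_659252_gt.Y.Qm

/-!
# Merging two nested families.  Size: M-L.

Here `(A₁, T₁)` is the inner family, `(A₂, T₂)` the outer one.
PROOF.  Choose `s ∈ (c₂, T₂)`, `r ∈ (0, a₁)` (in `(0, T₁)`) (`0 < s`: take `s > max c₂ 0`).  For `x ≠ 0` with `Q A₁ r x x ≤ 0`: with `s' ∈ (s, T₂)`, `Q A₂ s' x x ≤ 0` (`Inside`), `Q A₂ s x x < Q A₂ s' x x ≤ 0` (`Y.Q_lt`).  `slem` (`M₁ = A₁ r`, a Lorentz form, `M₂ = A₂ s`):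
`lam > 0` with `Q A₂ s x x < lam Q A₁ r x x` for `x ≠ 0`.  By continuity and compactness of the unit sphere there is `δ > 0` with `Q A₂ (s+t) x x < lam Q A₁ (r+t) x x` for `|t| ≤ δ`, `x ≠ 0`, and `[s-δ, s+δ] ⊆ (max c₂ 0, T₂)`, `[r-δ, r+δ] ⊆ (0, a₁) ∩ (0, T₁)`.
Let `σ = s - r`, `T = T₁ + σ`, `θ u = Real.smoothTransition ((u - (s - δ))/(2 δ))` (smooth, monotone, `0` for `u ≤ s - δ`, `1` for `u ≥ s + δ`), and
`M u = (1 - θ u) A₂ u + θ u lam A₁ (u - σ)`.  `T > s + δ > 0` (`r + δ < T₁`).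
smooth on `(0, T)`: for `u < s + δ` near `u`, and `u > 0`: `A₂` is smooth (`u < T₂`); for `u < s - δ` the second term is locally `0`, for `u > s - δ - (small)` `u - σ > r - δ - .. > 0` and `< T₁`: smooth; for `u > s + δ - (small)`..: at each `u` either `θ` is locally constant
`0` or `1` or both families are smooth.  `symm`, `pos` (positive combination of positive numbers).
`mono`: for `u ≤ s - δ` and `u ≥ s + δ` (one sided, use continuity of the derivative or the formula) and in between: `dot M u = (1-θ) dot A₂ u + θ lam dot A₁ (u - σ) + θ' u (lam A₁ (u - σ) - A₂ u)`, `θ' ≥ 0`, and the last bracket is positive definite on `[s-δ, s+δ]`;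
the first two are nonnegative multiples (not both zero) of positive definite forms.  (At all `u` the product rule applies on the smooth pieces.)
solid: for `u ≤ s + δ`, `u ∈ (0, T)`: `M u ≤ ...`: (iii) below gives a cone of `A₂` or `A₁` inside, and it has interior points; strictly: for `u < s - δ` `M u = A₂ u`; for `u ≥ s - δ`: `Q M u x x ≤ lam Q A₁ (u - σ) x x` for all `x`, take `x` with `Q A₁ (u-σ) x x < 0`.
(iii): for `u < s - δ` take `t = u` (first alternative); for `u ≥ s - δ`: `Q M u x x ≤ lam Q A₁ (u - σ) x x` (equality for `u ≥ s + δ`; in between `M u = (1-θ) A₂ + θ lam A₁ ≤ lam A₁`), `t = u - σ ∈ (0, T₁)` (second alternative).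
`cmp`: `Q A₂ s₀' ..`: the last clause holds with the `s`, `r` above.
-/

namespace Pool.Agent.Work.MP_659252_gt.SP

open scoped ContDiff Topology
open Pool.Agent.Work.MP_659252_gt.Z (V Ten val Tan InT)
open Pool.Agent.Work.MP_659252_gt.Y (Path Q AX dot Nested lev conf)
open Pool.Agent.Work.MP_659252_gt.QR (gr D2 Layered SymTen dir Bump Kq Loc Mat bil mul)

variable {d : ℕ}

private theorem merge_lin2 (B₁ B₂ : Mat d) (a b : ℝ) (x : V d) :
    bil (fun i j => a * B₁ i j + b * B₂ i j) x x = a * bil B₁ x x + b * bil B₂ x x := by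
  unfold bil
  rw [Finset.mul_sum, Finset.mul_sum, ← Finset.sum_add_distrib]
  refine Finset.sum_congr rfl fun i _ => ?_
  rw [Finset.mul_sum, Finset.mul_sum, ← Finset.sum_add_distrib]
  refine Finset.sum_congr rfl fun j _ => ?_
  ring

private theorem merge_lin4 (B₁ B₂ B₃ B₄ : Mat d) (a b c e : ℝ) (x : V d) :
    bil (fun i j => a * B₁ i j + b * B₂ i j + (c * B₃ i j + e * B₄ i j)) x x =
      a * bil B₁ x x + b * bil B₂ x x + (c * bil B₃ x x + e * bil B₄ x x) := by
  have h := merge_lin2 (fun i j => a * B₁ i j + b * B₂ i j) (fun i j => c * B₃ i j + e * B₄ i j) 1 1 x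
  simp only [one_mul] at h
  rw [h, merge_lin2, merge_lin2]

private theorem merge_scal (B : Mat d) (c : ℝ) (x : V d) : bil B (c • x) (c • x) = c ^ 2 * bil B x x := by
  unfold bil
  rw [Finset.mul_sum]
  refine Finset.sum_congr rfl fun i _ => ?_
  rw [Finset.mul_sum]
  refine Finset.sum_congr rfl fun j _ => ?_
  simp only [Pi.smul_apply, smul_eq_mul]
  ring

/-- The open condition near `s`, uniformly on the sphere. -/
private theorem merge_unif (A₁ : Path d) (T₁ : ℝ) (A₂ : Path d) (T₂ : ℝ) (h₁ : Nested A₁ T₁) (h₂ : Nested A₂ T₂)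
    (r s lam : ℝ) (hr : r ∈ Set.Ioo 0 T₁) (hs : s ∈ Set.Ioo 0 T₂)
    (h : ∀ x : V d, x ≠ 0 → Q A₂ s x x < lam * Q A₁ r x x) :
    ∀ᶠ t in 𝓝 (0 : ℝ), ∀ x : V d, x ≠ 0 → Q A₂ (s + t) x x < lam * Q A₁ (r + t) x x := by
  have hK : IsCompact (Metric.sphere (0 : V d) 1) := isCompact_sphere 0 1
  have h1 : ∀ᶠ t in 𝓝 (0 : ℝ), ∀ x ∈ Metric.sphere (0 : V d) 1, Q A₂ (s + t) x x < lam * Q A₁ (r + t) x x := by
    refine hK.eventually_forall_of_forall_eventually
      (P := fun (t : ℝ) (x : V d) => Q A₂ (s + t) x x < lam * Q A₁ (r + t) x x) ?_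
    intro x hx
    have hx0 : x ≠ 0 := by
      intro h0
      rw [h0] at hx
      simp at hx
    have hc2 : ContinuousAt (fun z : ℝ × V d => Q A₂ (s + z.1) z.2 z.2) ((0 : ℝ), x) := by
      unfold Q
      refine tendsto_finset_sum _ fun i _ => tendsto_finset_sum _ fun j _ => ?_
      refine Filter.Tendsto.mul ?_ ?_
      · have hca : ContinuousAt (fun m => A₂ m i j) (s + (0 : ℝ)) := by
          rw [add_zero]
          exact ((h₂.smooth i j).continuousOn).continuousAt (isOpen_Ioo.mem_nhds hs)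
        have hcb : ContinuousAt (fun z : ℝ × V d => s + z.1) ((0 : ℝ), x) := by fun_prop
        exact ContinuousAt.comp (f := fun z : ℝ × V d => s + z.1) (g := fun m => A₂ m i j) hca hcb
      · have : ContinuousAt (fun z : ℝ × V d => z.2 i * z.2 j) ((0 : ℝ), x) := by fun_prop
        exact this
    have hc1 : ContinuousAt (fun z : ℝ × V d => lam * Q A₁ (r + z.1) z.2 z.2) ((0 : ℝ), x) := by
      refine continuousAt_const.mul ?_
      unfold Q
      refine tendsto_finset_sum _ fun i _ => tendsto_finset_sum _ fun j _ => ?_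
      refine Filter.Tendsto.mul ?_ ?_
      · have hca : ContinuousAt (fun m => A₁ m i j) (r + (0 : ℝ)) := by
          rw [add_zero]
          exact ((h₁.smooth i j).continuousOn).continuousAt (isOpen_Ioo.mem_nhds hr)
        have hcb : ContinuousAt (fun z : ℝ × V d => r + z.1) ((0 : ℝ), x) := by fun_prop
        exact ContinuousAt.comp (f := fun z : ℝ × V d => r + z.1) (g := fun m => A₁ m i j) hca hcb
      · have : ContinuousAt (fun z : ℝ × V d => z.2 i * z.2 j) ((0 : ℝ), x) := by fun_prop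
        exact this
    refine hc2.eventually_lt hc1 ?_
    simp only [add_zero]
    exact h x hx0
  filter_upwards [h1] with t ht x hx
  have hn : 0 < ‖x‖ := norm_pos_iff.2 hx
  have hu : ‖x‖⁻¹ • x ∈ Metric.sphere (0 : V d) 1 := by
    rw [mem_sphere_zero_iff_norm, norm_smul, norm_inv, norm_norm, inv_mul_cancel₀ hn.ne']
  have h2 := ht _ hu
  have e2 : Q A₂ (s + t) (‖x‖⁻¹ • x) (‖x‖⁻¹ • x) = (‖x‖⁻¹) ^ 2 * Q A₂ (s + t) x x := merge_scal _ _ _
  have e1 : Q A₁ (r + t) (‖x‖⁻¹ • x) (‖x‖⁻¹ • x) = (‖x‖⁻¹) ^ 2 * Q A₁ (r + t) x x := merge_scal _ _ _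
  rw [e1, e2] at h2
  have hp : 0 < (‖x‖⁻¹) ^ 2 := by positivity
  have h3 : (‖x‖⁻¹) ^ 2 * Q A₂ (s + t) x x < (‖x‖⁻¹) ^ 2 * (lam * Q A₁ (r + t) x x) := by
    linarith
  exact lt_of_mul_lt_mul_left h3 hp.le

private theorem merge_choice (A₁ : Path d) (T₁ : ℝ) (A₂ : Path d) (T₂ : ℝ) (h₁ : Solid A₁ T₁) (h₂ : Solid A₂ T₂)
    (hin : Inside A₁ T₁ A₂ T₂) (a₁ c₂ : ℝ) (ha₁ : 0 < a₁) (hc₂ : c₂ < T₂) :
    ∃ r s lam δ : ℝ, 0 < lam ∧ 0 < δ ∧ 0 < s - δ ∧ c₂ < s - δ ∧ s + δ < T₂ ∧ 0 < r - δ ∧ r + δ < a₁ ∧ r + δ < T₁ ∧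
      ∀ u ∈ Set.Icc (s - δ) (s + δ), ∀ x : V d, x ≠ 0 → Q A₂ u x x < lam * Q A₁ (u - (s - r)) x x := by
  obtain ⟨s, hs1, hs2⟩ := exists_between (max_lt hc₂ h₂.pos)
  obtain ⟨r, hr1, hr2⟩ := exists_between (lt_min ha₁ h₁.pos)
  have hsc : c₂ < s := lt_of_le_of_lt (le_max_left _ _) hs1
  have hs0 : 0 < s := lt_of_le_of_lt (le_max_right _ _) hs1
  have hra : r < a₁ := lt_of_lt_of_le hr2 (min_le_left _ _)
  have hrT : r < T₁ := lt_of_lt_of_le hr2 (min_le_right _ _)
  have hrI : r ∈ Set.Ioo 0 T₁ := ⟨hr1, hrT⟩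
  have hsI : s ∈ Set.Ioo 0 T₂ := ⟨hs0, hs2⟩
  obtain ⟨s', hs'1, hs'2⟩ := exists_between hs2
  have hs'I : s' ∈ Set.Ioo 0 T₂ := ⟨hs0.trans hs'1, hs'2⟩
  have hL : Lor (A₁ r) := ⟨fun i j => h₁.nested.symm r i j, fun z hz hz0 => h₁.nested.pos r hrI z hz hz0,
    h₁.solid r hrI⟩
  obtain ⟨lam, hlam, hl⟩ := slem (A₁ r) (A₂ s) hL (fun i j => h₂.nested.symm s i j) (fun x hx hx1 =>
    lt_of_lt_of_le (Y.Q_lt h₂.nested hsI hs'I hs'1 x hx) (hin r hrI s' hs'I x hx1))
  have hev := merge_unif A₁ T₁ A₂ T₂ h₁.nested h₂.nested r s lam hrI hsI hl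
  have hall : ∀ᶠ t in 𝓝 (0 : ℝ), (∀ x : V d, x ≠ 0 → Q A₂ (s + t) x x < lam * Q A₁ (r + t) x x) ∧
      (0 < s + t ∧ c₂ < s + t ∧ s + t < T₂) ∧ (0 < r + t ∧ r + t < a₁ ∧ r + t < T₁) := by
    refine hev.and (Filter.Eventually.and ?_ ?_)
    · have hc : ContinuousAt (fun t : ℝ => s + t) 0 := by fun_prop
      refine (hc.eventually_const_lt (by simpa using hs0)).and
        ((hc.eventually_const_lt (by simpa using hsc)).and (hc.eventually_lt_const (by simpa using hs2)))
    · have hc : ContinuousAt (fun t : ℝ => r + t) 0 := by fun_prop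
      refine (hc.eventually_const_lt (by simpa using hr1)).and
        ((hc.eventually_lt_const (by simpa using hra)).and (hc.eventually_lt_const (by simpa using hrT)))
  obtain ⟨δ, hδ, hδ'⟩ := Metric.eventually_nhds_iff.1 hall
  have key : ∀ t : ℝ, |t| ≤ δ / 2 → (∀ x : V d, x ≠ 0 → Q A₂ (s + t) x x < lam * Q A₁ (r + t) x x) ∧
      (0 < s + t ∧ c₂ < s + t ∧ s + t < T₂) ∧ (0 < r + t ∧ r + t < a₁ ∧ r + t < T₁) := by
    intro t ht
    apply hδ'
    rw [Real.dist_eq, sub_zero]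
    linarith
  have hm := key (-(δ / 2)) (by rw [abs_neg, abs_of_pos (by linarith)])
  have hp := key (δ / 2) (by rw [abs_of_pos (by linarith)])
  refine ⟨r, s, lam, δ / 2, hlam, by linarith, ?_, ?_, ?_, ?_, ?_, ?_, ?_⟩
  · have := hm.2.1.1; linarith
  · have := hm.2.1.2.1; linarith
  · exact hp.2.1.2.2
  · have := hm.2.2.1; linarith
  · exact hp.2.2.2.1
  · exact hp.2.2.2.2
  · intro u hu x hx
    have := (key (u - s) (by rw [abs_le]; exact ⟨by linarith [hu.1], by linarith [hu.2]⟩)).1 x hx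
    have e1 : s + (u - s) = u := by ring
    have e2 : r + (u - s) = u - (s - r) := by ring
    rwa [e1, e2] at this

private theorem merge_theta (s₀ s₁ : ℝ) (h : s₀ < s₁) :
    ∃ θ : ℝ → ℝ, ContDiff ℝ ∞ θ ∧ Monotone θ ∧ (∀ u, 0 ≤ θ u) ∧ (∀ u, θ u ≤ 1) ∧ (∀ u, u ≤ s₀ → θ u = 0) ∧
      (∀ u, s₁ ≤ u → θ u = 1) := by
  have hd : 0 < s₁ - s₀ := by linarith
  refine ⟨fun u => Real.smoothTransition ((u - s₀) / (s₁ - s₀)), ?_, ?_, ?_, ?_, ?_, ?_⟩
  · exact Real.smoothTransition.contDiff.comp ((contDiff_id.sub contDiff_const).div_const _)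
  · intro a b hab
    apply Real.smoothTransition.monotone
    exact div_le_div_of_nonneg_right (by linarith) hd.le
  · intro u; exact Real.smoothTransition.nonneg _
  · intro u; exact Real.smoothTransition.le_one _
  · intro u hu
    exact Real.smoothTransition.zero_of_nonpos (div_nonpos_of_nonpos_of_nonneg (by linarith) hd.le)
  · intro u hu
    exact Real.smoothTransition.one_of_one_le ((one_le_div hd).2 (by linarith))

theorem merge (A₁ : Path d) (T₁ : ℝ) (A₂ : Path d) (T₂ : ℝ) (h₁ : Solid A₁ T₁) (h₂ : Solid A₂ T₂)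
    (hin : Inside A₁ T₁ A₂ T₂) (a₁ c₂ : ℝ) (ha₁ : 0 < a₁) (hc₂ : c₂ < T₂) :
    ∃ (M : Path d) (T σ lam s₀ s₁ : ℝ), Solid M T ∧ T = T₁ + σ ∧ 0 < lam ∧ 0 < s₀ ∧ c₂ < s₀ ∧ s₀ < s₁ ∧ s₁ < T₂ ∧
      0 < s₀ - σ ∧ s₁ - σ < a₁ ∧ s₁ - σ < T₁ ∧ (∀ u, u < s₀ → M u = A₂ u) ∧
      (∀ u, s₁ < u → M u = fun i j => lam * A₁ (u - σ) i j) ∧
      (∀ u ∈ Set.Ioo 0 T, (∃ t ∈ Set.Ioo 0 T₂, ∀ x : V d, Q A₂ t x x ≤ 0 → Q M u x x ≤ 0) ∨
        ∃ t ∈ Set.Ioo 0 T₁, ∀ x : V d, Q A₁ t x x ≤ 0 → Q M u x x ≤ 0) ∧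
      ∀ u ∈ Set.Icc s₀ s₁, ∀ x : V d, x ≠ 0 → Q A₂ u x x < lam * Q A₁ (u - σ) x x := by
  obtain ⟨r, s, lam, δ, hlam, hδ, hs0, hsc, hsT, hr0, hra, hrT, hcmp⟩ :=
    merge_choice A₁ T₁ A₂ T₂ h₁ h₂ hin a₁ c₂ ha₁ hc₂
  obtain ⟨θ, hθs, hθm, hθ0, hθ1, hθa, hθb⟩ := merge_theta (s - δ) (s + δ) (by linarith)
  obtain ⟨σ, hσ⟩ : ∃ σ, σ = s - r := ⟨_, rfl⟩
  rw [← hσ] at hcmp
  set M : Path d := fun u i j => (1 - θ u) * A₂ u i j + (θ u * lam) * A₁ (u - σ) i j with hM
  have hQM : ∀ (u : ℝ) (x : V d), Q M u x x = (1 - θ u) * Q A₂ u x x + (θ u * lam) * Q A₁ (u - σ) x x :=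
    fun u x => merge_lin2 (A₂ u) (A₁ (u - σ)) (1 - θ u) (θ u * lam) x
  have hlo : ∀ u, u ≤ s - δ → M u = A₂ u := by
    intro u hu
    funext i j
    simp only [hM, hθa u hu]
    ring
  have hhi : ∀ u, s + δ ≤ u → M u = fun i j => lam * A₁ (u - σ) i j := by
    intro u hu
    funext i j
    simp only [hM, hθb u hu]
    ring
  have hθ'0 : ∀ u, 0 ≤ deriv θ u := fun u => hθm.deriv_nonneg
  -- upper bound by the inner family
  have hup : ∀ u ∈ Set.Ioo 0 (T₁ + σ), s - δ ≤ u → ∀ x : V d, Q M u x x ≤ lam * Q A₁ (u - σ) x x := by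
    intro u hu hu1 x
    rcases le_total u (s + δ) with h | h
    · rw [hQM]
      rcases eq_or_ne x 0 with rfl | hx
      · have z1 : Q A₂ u (0 : V d) 0 = 0 := by simp [Q]
        have z2 : Q A₁ (u - σ) (0 : V d) 0 = 0 := by simp [Q]
        rw [z1, z2]; simp
      · have h3 := hcmp u ⟨hu1, h⟩ x hx
        nlinarith [hθ1 u, hθ0 u]
    · rw [hQM, hθb u h]
      linarith
  have hT0 : 0 < T₁ + σ := by rw [hσ]; linarith
  have hin1 : ∀ u ∈ Set.Ioo 0 (T₁ + σ), s - δ ≤ u → u - σ ∈ Set.Ioo 0 T₁ := by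
    intro u hu h
    refine ⟨?_, by linarith [hu.2]⟩
    rw [hσ]; linarith
  have hin2 : ∀ u ∈ Set.Ioo 0 (T₁ + σ), u ≤ s + δ → u ∈ Set.Ioo 0 T₂ := by
    intro u hu h
    exact ⟨hu.1, by linarith⟩
  have hnest : Nested M (T₁ + σ) := by
    refine ⟨?_, ?_, ?_, ?_⟩
    · intro i j u hu
      refine ContDiffAt.contDiffWithinAt ?_
      rcases lt_or_ge u (s - δ) with h | h
      · have h3 : ContDiffAt ℝ ∞ (fun m => A₂ m i j) u :=
          (h₂.nested.smooth i j).contDiffAt (isOpen_Ioo.mem_nhds (hin2 u hu (by linarith)))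
        refine h3.congr_of_eventuallyEq ?_
        filter_upwards [gt_mem_nhds h] with m hm
        rw [hlo m (le_of_lt hm)]
      · rcases lt_or_ge (s + δ) u with h' | h'
        · have h3 : ContDiffAt ℝ ∞ (fun m => A₁ m i j) (u - σ) :=
            (h₁.nested.smooth i j).contDiffAt (isOpen_Ioo.mem_nhds (hin1 u hu h))
          have h4 : ContDiffAt ℝ ∞ (fun m => A₁ (m - σ) i j) u :=
            ContDiffAt.comp (g := fun m => A₁ m i j) (f := fun m => m - σ) u h3
              (contDiffAt_id.sub contDiffAt_const)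
          have h5 : ContDiffAt ℝ ∞ (fun m => lam * A₁ (m - σ) i j) u := contDiffAt_const.mul h4
          refine h5.congr_of_eventuallyEq ?_
          filter_upwards [lt_mem_nhds h'] with m hm
          rw [hhi m (le_of_lt hm)]
        · have h2 : ContDiffAt ℝ ∞ (fun m => A₂ m i j) u :=
            (h₂.nested.smooth i j).contDiffAt (isOpen_Ioo.mem_nhds (hin2 u hu h'))
          have h3 : ContDiffAt ℝ ∞ (fun m => A₁ m i j) (u - σ) :=
            (h₁.nested.smooth i j).contDiffAt (isOpen_Ioo.mem_nhds (hin1 u hu h))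
          have h4 : ContDiffAt ℝ ∞ (fun m => A₁ (m - σ) i j) u :=
            ContDiffAt.comp (g := fun m => A₁ m i j) (f := fun m => m - σ) u h3
              (contDiffAt_id.sub contDiffAt_const)
          have hθu : ContDiffAt ℝ ∞ θ u := hθs.contDiffAt
          exact ((contDiffAt_const.sub hθu).mul h2).add ((hθu.mul contDiffAt_const).mul h4)
    · intro u i j
      simp only [hM]
      rw [h₁.nested.symm (u - σ) i j, h₂.nested.symm u i j]
    · intro u hu z hz hz0
      rcases lt_or_ge u (s - δ) with h | h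
      · have h3 := h₂.nested.pos u (hin2 u hu (by linarith)) z hz hz0
        have e : Q M u z z = Q A₂ u z z := by unfold Q; rw [hlo u h.le]
        rw [e]; exact h3
      · have ha := h₁.nested.pos (u - σ) (hin1 u hu h) z hz hz0
        rcases lt_or_ge (s + δ) u with h' | h'
        · rw [hQM, hθb u h'.le]
          have : 0 < lam * Q A₁ (u - σ) z z := mul_pos hlam ha
          linarith
        · have hb := h₂.nested.pos u (hin2 u hu h') z hz hz0
          rw [hQM]
          have hla : 0 < lam * Q A₁ (u - σ) z z := mul_pos hlam ha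
          rcases eq_or_lt_of_le (hθ0 u) with he | hl
          · rw [← he]; linarith
          · have : 0 < θ u * (lam * Q A₁ (u - σ) z z) := mul_pos hl hla
            have h5 : 0 ≤ (1 - θ u) * Q A₂ u z z := mul_nonneg (by linarith [hθ1 u]) hb.le
            linarith
    · intro u hu x hx
      rcases lt_or_ge u (s - δ) with h | h
      · have e : dot M u = dot A₂ u := by
          funext i j
          unfold dot
          refine Filter.EventuallyEq.deriv_eq ?_
          filter_upwards [gt_mem_nhds h] with m hm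
          rw [hlo m (le_of_lt hm)]
        have e' : Q (dot M) u x x = Q (dot A₂) u x x := by unfold Q; rw [e]
        rw [e']
        exact h₂.nested.mono u (hin2 u hu (by linarith)) x hx
      · have hmem1 := hin1 u hu h
        have hd1 : ∀ i j, HasDerivAt (fun m => A₁ (m - σ) i j) (dot A₁ (u - σ) i j) u := by
          intro i j
          exact (Y.A_deriv h₁.nested hmem1 i j).comp_sub_const u σ
        rcases lt_or_ge (s + δ) u with h' | h'
        · have e : dot M u = fun i j => lam * dot A₁ (u - σ) i j + 0 * dot A₁ (u - σ) i j := by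
            funext i j
            have e1 : dot M u i j = deriv (fun m => lam * A₁ (m - σ) i j) u := by
              unfold dot
              refine Filter.EventuallyEq.deriv_eq ?_
              filter_upwards [lt_mem_nhds h'] with m hm
              rw [hhi m (le_of_lt hm)]
            rw [e1, ((hd1 i j).const_mul lam).deriv]
            ring
          have e' : Q (dot M) u x x = lam * Q (dot A₁) (u - σ) x x + 0 * Q (dot A₁) (u - σ) x x := by
            have := merge_lin2 (dot A₁ (u - σ)) (dot A₁ (u - σ)) lam 0 x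
            rw [← e] at this
            exact this
          rw [e']
          have := mul_pos hlam (h₁.nested.mono (u - σ) hmem1 x hx)
          linarith
        · have hmem2 := hin2 u hu h'
          have hθd : HasDerivAt θ (deriv θ u) u :=
            (hθs.differentiable (by simp)).differentiableAt.hasDerivAt
          have e : dot M u = fun i j => (1 - θ u) * dot A₂ u i j + (θ u * lam) * dot A₁ (u - σ) i j +
              ((-deriv θ u) * A₂ u i j + (deriv θ u * lam) * A₁ (u - σ) i j) := by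
            funext i j
            have hda := ((hasDerivAt_const u (1 : ℝ)).sub hθd).mul (Y.A_deriv h₂.nested hmem2 i j)
            have hdb := (hθd.mul_const lam).mul (hd1 i j)
            have hdc := hda.add hdb
            have : dot M u i j = deriv (fun m => M m i j) u := rfl
            rw [this]
            have hfin : HasDerivAt (fun m => M m i j) ((0 - deriv θ u) * A₂ u i j + (1 - θ u) * dot A₂ u i j +
                (deriv θ u * lam * A₁ (u - σ) i j + θ u * lam * dot A₁ (u - σ) i j)) u := hdc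
            rw [hfin.deriv]
            ring
          have e' : Q (dot M) u x x = (1 - θ u) * Q (dot A₂) u x x + (θ u * lam) * Q (dot A₁) (u - σ) x x +
              ((-deriv θ u) * Q A₂ u x x + (deriv θ u * lam) * Q A₁ (u - σ) x x) := by
            have := merge_lin4 (dot A₂ u) (dot A₁ (u - σ)) (A₂ u) (A₁ (u - σ)) (1 - θ u) (θ u * lam)
              (-deriv θ u) (deriv θ u * lam) x
            rw [← e] at this
            exact this
          rw [e']
          have ha := mul_pos hlam (h₁.nested.mono (u - σ) hmem1 x hx)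
          have hb := h₂.nested.mono u hmem2 x hx
          have hc := hcmp u ⟨h, h'⟩ x hx
          have hc' : 0 ≤ deriv θ u * (lam * Q A₁ (u - σ) x x - Q A₂ u x x) :=
            mul_nonneg (hθ'0 u) (by linarith)
          rcases eq_or_lt_of_le (hθ0 u) with he | hl
          · rw [← he]
            rw [← he] at *
            linarith
          · have h6 : 0 < θ u * (lam * Q (dot A₁) (u - σ) x x) := mul_pos hl ha
            have h5 : 0 ≤ (1 - θ u) * Q (dot A₂) u x x := mul_nonneg (by linarith [hθ1 u]) hb.le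
            linarith
  have hiii : ∀ u ∈ Set.Ioo 0 (T₁ + σ), (∃ t ∈ Set.Ioo 0 T₂, ∀ x : V d, Q A₂ t x x ≤ 0 → Q M u x x ≤ 0) ∨
      ∃ t ∈ Set.Ioo 0 T₁, ∀ x : V d, Q A₁ t x x ≤ 0 → Q M u x x ≤ 0 := by
    intro u hu
    rcases lt_or_ge u (s - δ) with h | h
    · left
      refine ⟨u, hin2 u hu (by linarith), fun x hx => ?_⟩
      have e : Q M u x x = Q A₂ u x x := by unfold Q; rw [hlo u h.le]
      rw [e]; exact hx
    · right
      refine ⟨u - σ, hin1 u hu h, fun x hx => (hup u hu h x).trans ?_⟩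
      exact mul_nonpos_of_nonneg_of_nonpos hlam.le hx
  have hsolid : Solid M (T₁ + σ) := by
    refine ⟨hT0, hnest, ?_⟩
    intro u hu
    rcases lt_or_ge u (s - δ) with h | h
    · obtain ⟨x, hx⟩ := h₂.solid u (hin2 u hu (by linarith))
      refine ⟨x, ?_⟩
      have e : Q M u x x = Q A₂ u x x := by unfold Q; rw [hlo u h.le]
      rw [e]; exact hx
    · obtain ⟨x, hx⟩ := h₁.solid (u - σ) (hin1 u hu h)
      refine ⟨x, (hup u hu h x).trans_lt ?_⟩
      exact mul_neg_of_pos_of_neg hlam hx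
  refine ⟨M, T₁ + σ, σ, lam, s - δ, s + δ, hsolid, rfl, hlam, hs0, hsc, by linarith, hsT, by rw [hσ]; linarith,
    by rw [hσ]; linarith, by rw [hσ]; linarith, fun u hu => hlo u hu.le, fun u hu => hhi u hu.le, hiii, hcmp⟩

end Pool.Agent.Work.MP_659252_gt.SP
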